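import Pool.Agent.helper43.DHB.SpecB

/-!
# Module bFGA of project d2: from the two parities to the family
-/

set_option autoImplicit false

open Filter Topology MeasureTheory
open scoped commutatorElement

namespace Pool.Agent.helper90.DH

open Pool.Agent.helper64.D2

theorem bFGA_mono (a b : ℝ) (C : ℝ → ℝ) (hab : a ≤ b) (h : NM a C) : NM b C :=
  ⟨h.cd, fun x => (h.sl x).trans hab, fun x => (h.ds x).trans hab⟩

theorem bFGA_mem (u : ℕ) (x : ℝ) (k : ℤ) : x ∈ cell u k ↔ ci u x = k := by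
  have hp : (0 : ℝ) < 2 ^ u := by positivity
  unfold cell ci
  rw [Int.floor_eq_iff, Set.mem_Ico, div_le_iff₀ hp, lt_div_iff₀ hp, mul_comm x]

theorem bFGA_cell (u : ℕ) (x : ℝ) (h0 : 0 ≤ x) (h1 : x < 1) : ∃ l : Fin (2 ^ u), ((l : ℕ) : ℤ) = ci u x := by
  have hp : (0 : ℝ) < 2 ^ u := by positivity
  have e1 : 0 ≤ ci u x := Int.floor_nonneg.2 (mul_nonneg hp.le h0)
  have e2 : ci u x < 2 ^ u := by
    unfold ci
    rw [Int.floor_lt]
    push_cast
    nlinarith
  obtain ⟨n, hn⟩ := Int.eq_ofNat_of_zero_le e1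
  have e3 : n < 2 ^ u := by
    rw [hn] at e2
    exact_mod_cast e2
  exact ⟨⟨n, e3⟩, by rw [hn]⟩

theorem bFGA_sq (K a b n : ℝ) (hK : 1 ≤ K) (ha : 0 ≤ a) (hb : 0 ≤ b) (hn : 0 ≤ n) :
    √(K * (a ^ 2 + b) * n) ≤ K * (a + √b) * √n := by
  have hsb := Real.sqrt_nonneg b
  have hsn := Real.sqrt_nonneg n
  have e1 := Real.sq_sqrt hb
  have e2 := Real.sq_sqrt hn
  rw [Real.sqrt_le_iff]
  refine ⟨by positivity, ?_⟩
  have e3 : (K * (a + √b) * √n) ^ 2 = K ^ 2 * (a + √b) ^ 2 * n := by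
    calc (K * (a + √b) * √n) ^ 2 = K ^ 2 * (a + √b) ^ 2 * (√n) ^ 2 := by ring
      _ = K ^ 2 * (a + √b) ^ 2 * n := by rw [e2]
  rw [e3]
  refine mul_le_mul_of_nonneg_right ?_ hn
  have e4 : a ^ 2 + b ≤ (a + √b) ^ 2 := by nlinarith [mul_nonneg ha hsb]
  have e5 : K ≤ K ^ 2 := by nlinarith
  exact mul_le_mul e5 e4 (by positivity) (by positivity)

theorem bFGA_nn (f : ℝ → ℝ) : 0 ≤ nsq f := integral_nonneg fun _ => sq_nonneg _

theorem bFGA_nc0 : Nc (fun _ => (0 : ℝ)) := ⟨measurable_const, 0, by simp, by simp⟩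

/-- The cells of parity `par`. -/
def bFGA_U (u par : ℕ) : Set ℝ := {x | ∃ l : Fin (2 ^ u), (l : ℕ) % 2 = par ∧ x ∈ cell u ((l : ℕ) : ℤ)}

theorem bFGA_Um (u par : ℕ) : MeasurableSet (bFGA_U u par) := by
  have e : bFGA_U u par = ⋃ l : {l : Fin (2 ^ u) // (l : ℕ) % 2 = par}, cell u ((l.1 : ℕ) : ℤ) := by
    ext x
    simp only [bFGA_U, Set.mem_iUnion, Subtype.exists]
    constructor
    · rintro ⟨l, h1, h2⟩
      exact ⟨l, h1, h2⟩
    · rintro ⟨l, h1, h2⟩
      exact ⟨l, h1, h2⟩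
  rw [e]
  exact MeasurableSet.iUnion fun l => measurableSet_Ico

theorem bFGA_zin {ι : Type} (P B : ι → ℝ → ℝ) (u N par : ℕ) (τ : ℝ) (f : ℝ → ℝ)
    (ω : ι × Fin (2 ^ u) → Fin N) (i : ι) (x : ℝ) (l : Fin (2 ^ u)) (hl : ((l : ℕ) : ℤ) = ci u x) :
    zc P B u N par τ f ω i x = if (l : ℕ) % 2 = par then
      f (P i (B i x + τ * (((ω (i, l) : ℕ) : ℝ) / N)))
        - (∑ k ∈ Finset.range N, f (P i (B i x + τ * ((k : ℝ) / N)))) / N else 0 := by
  unfold zc
  rw [Finset.sum_eq_single l]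
  · by_cases hp : (l : ℕ) % 2 = par
    · rw [if_pos hp, if_pos ⟨hp, (bFGA_mem u x _).2 hl.symm⟩]
    · rw [if_neg hp, if_neg (fun h => hp h.1)]
  · intro l' _ hne
    rw [if_neg]
    rintro ⟨_, h⟩
    apply hne
    apply Fin.ext
    have := (bFGA_mem u x _).1 h
    rw [← hl] at this
    exact_mod_cast this.symm
  · intro h
    exact absurd (Finset.mem_univ _) h

theorem bFGA_zout {ι : Type} (P B : ι → ℝ → ℝ) (u N par : ℕ) (τ : ℝ) (f : ℝ → ℝ)
    (ω : ι × Fin (2 ^ u) → Fin N) (i : ι) (x : ℝ) (h1 : ∀ θ : ℝ, 0 ≤ θ → θ ≤ 1 → f (P i (B i x + τ * θ)) = 0) :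
    zc P B u N par τ f ω i x = 0 := by
  unfold zc
  refine Finset.sum_eq_zero fun l _ => ?_
  have hN : 0 < N := lt_of_le_of_lt (Nat.zero_le _) (ω (i, l)).2
  have hN' : (0 : ℝ) < N := by exact_mod_cast hN
  have h2 : ∀ k : ℕ, k < N → f (P i (B i x + τ * ((k : ℝ) / N))) = 0 := by
    intro k hk
    refine h1 _ (by positivity) ?_
    rw [div_le_one hN']
    exact_mod_cast hk.le
  rw [h2 _ (ω (i, l)).2, Finset.sum_eq_zero (fun k hk => h2 k (Finset.mem_range.1 hk))]
  simp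

theorem bFGA_znc (hI : bNIC_stmt) {ι : Type} (P B : ι → ℝ → ℝ) (u N par : ℕ) (τ : ℝ) (f : ℝ → ℝ)
    (ω : ι × Fin (2 ^ u) → Fin N) (i : ι) (h1 : ∀ k : ℕ, k < N → Nc (fun x => f (P i (B i x + τ * ((k : ℝ) / N))))) :
    Nc (zc P B u N par τ f ω i) := by
  obtain ⟨i1, i2, i3, i4, -⟩ := hI
  have hm : Nc (fun x => (∑ k ∈ Finset.range N, f (P i (B i x + τ * ((k : ℝ) / N)))) / N) :=
    (i2 _ _ (i4 ℕ (Finset.range N) (fun k x => f (P i (B i x + τ * ((k : ℝ) / N))))
      (fun k hk => h1 k (Finset.mem_range.1 hk)))).2.1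
  unfold zc
  refine i4 (Fin (2 ^ u)) Finset.univ _ (fun l _ => ?_)
  by_cases hp : (l : ℕ) % 2 = par
  · have h2 := i3 _ (cell u ((l : ℕ) : ℤ)) measurableSet_Ico (i1 _ _ (h1 _ (ω (i, l)).2) hm).2.1
    refine (congrArg Nc ?_).mp h2
    funext x
    by_cases hx : x ∈ cell u ((l : ℕ) : ℤ)
    · rw [Set.indicator_of_mem hx, if_pos ⟨hp, hx⟩]
    · rw [Set.indicator_of_notMem hx, if_neg (fun h => hx h.2)]
  · refine (congrArg Nc ?_).mp bFGA_nc0
    funext x
    rw [if_neg (fun h => hp h.1)]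

theorem bFGA_two (p : ℕ) (h : p < 2) (a b : ℝ) :
    (if p = 0 then a else 0) + (if p = 1 then a else 0) + (if p = 0 then b else 0) + (if p = 1 then b else 0) = a + b := by
  rcases (by omega : p = 0 ∨ p = 1) with h | h <;> subst h <;> simp

theorem bFGA (h1 : bMEA_stmt) (hI : bNIC_stmt) (hF : bNMF_stmt) (hWD : bWDF_stmt) : bFGA_stmt := by
  intro β hβ
  obtain ⟨Kb, hKb, hW⟩ := hWD β hβ
  obtain ⟨K, hK, hM⟩ := h1
  refine ⟨Kb, 2 * K, hKb, by linarith, ?_⟩
  intro q m φ u s N P E τ lam1 w hPE hτ hKτ hu hN hs hlam hne hz f hf1 hf2 hf3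
  obtain ⟨i1, i2, i3, i4, i5, i6, i7, i8, i9, i10, i11⟩ := id hI
  obtain ⟨f1, f2, f3, f4⟩ := hF
  have hu2 : (256 : ℝ) ≤ 2 ^ u := by
    calc (256 : ℝ) = 2 ^ 8 := by norm_num
      _ ≤ 2 ^ u := pow_le_pow_right₀ (by norm_num) hu
  have hτ2 : τ ≤ 1 / 256000 := by
    have e1 : τ ≤ Kb * τ := by nlinarith
    have e2 : (Kb * τ) * 256 ≤ Kb * τ * 2 ^ u := mul_le_mul_of_nonneg_left hu2 (by positivity)
    linarith
  have hNr : (0 : ℝ) < N := by exact_mod_cast hN
  have hdg : ∀ i l, dg w i l ≤ N := by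
    intro i l
    unfold dg
    split_ifs
    · exact (w _).2.le
    · exact Nat.zero_le _
  have hWd := fun (par i : ℕ) => hW u N τ (fun l => if l % 2 = par then 0 else dg w i l) (by omega) hN hτ.le (by
    intro l
    split_ifs
    · exact Nat.zero_le _
    · exact hdg i l)
  have hWe := fun (i : ℕ) => hW u N τ (dg w i) (by omega) hN hτ.le (hdg i)
  have hB : ∀ par i, NM (1 / 100) (Bfr β u N par τ E (dg w) i) := by
    intro par i
    obtain ⟨w1, w2, w3, -, -⟩ := hWd par i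
    obtain ⟨-, -, e⟩ := hPE i
    have hd1 : Differentiable ℝ (E i) := e.cd.differentiable (by norm_num)
    have hd2 : Differentiable ℝ (Wd β u N τ (fun l => if l % 2 = par then 0 else dg w i l)) :=
      w1.differentiable (by norm_num)
    refine ⟨e.cd.add w1, fun x => ?_, fun x => ?_⟩
    · have h : deriv (Bfr β u N par τ E (dg w) i) x
          = deriv (E i) x + deriv (Wd β u N τ (fun l => if l % 2 = par then 0 else dg w i l)) x :=
        deriv_add (hd1 x) (hd2 x)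
      rw [h]
      have e1 := e.sl x
      have e2 := (w3 x).trans hKτ
      rw [abs_le] at e1 e2 ⊢
      constructor <;> linarith [e1.1, e1.2, e2.1, e2.2]
    · have h : Bfr β u N par τ E (dg w) i x
          = E i x + Wd β u N τ (fun l => if l % 2 = par then 0 else dg w i l) x := rfl
      rw [h]
      have e1 := e.ds x
      have e2 := w2 x
      rw [abs_le] at e1 e2 ⊢
      constructor <;> linarith [e1.1, e1.2, e2.1, e2.2]
  have hout : ∀ (par i : ℕ) (x θ : ℝ), x ∉ Set.Icc (1 / 6 : ℝ) (5 / 6) → 0 ≤ θ → θ ≤ 1 →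
      f (P i (Bfr β u N par τ E (dg w) i x + τ * θ)) = 0 := by
    intro par i x θ hx h0 h1
    apply hf2
    intro hy
    apply hx
    have e1 := (hPE i).1.ds (Bfr β u N par τ E (dg w) i x + τ * θ)
    have e2 := (hB par i).ds x
    rw [abs_le] at e1 e2
    have e3 : τ * θ ≤ 1 / 256000 := by nlinarith
    have e4 : 0 ≤ τ * θ := by positivity
    exact ⟨by linarith [hy.1, e1.1, e1.2, e2.1, e2.2], by linarith [hy.2, e1.1, e1.2, e2.1, e2.2]⟩
  have hout2 : ∀ (i : ℕ) (x : ℝ), x ∉ Set.Icc (1 / 6 : ℝ) (5 / 6) →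
      f (CMf β u N (fun _ => τ) P E (dg w) i x) = 0 := by
    intro i x hx
    apply hf2
    intro hy
    apply hx
    have h : CMf β u N (fun _ => τ) P E (dg w) i x = P i (E i x + Wd β u N τ (dg w i) x) := rfl
    rw [h] at hy
    have e1 := (hPE i).1.ds (E i x + Wd β u N τ (dg w i) x)
    have e2 := (hPE i).2.2.ds x
    have e3 := (hWe i).2.1 x
    rw [abs_le] at e1 e2 e3
    exact ⟨by linarith [hy.1, e1.1, e1.2, e2.1, e2.2, e3.1, e3.2],
      by linarith [hy.2, e1.1, e1.2, e2.1, e2.2, e3.1, e3.2]⟩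
  have hin : ∀ (i : ℕ) (hi : i < q) (x : ℝ) (l : Fin (2 ^ u)), x ∈ Set.Icc (1 / 6 : ℝ) (5 / 6) →
      ((l : ℕ) : ℤ) = ci u x → CMf β u N (fun _ => τ) P E (dg w) i x
        = P i (Bfr β u N ((l : ℕ) % 2) τ E (dg w) i x + τ * (((w (⟨i, hi⟩, l) : ℕ) : ℝ) / N)) := by
    intro i hi x l hx hl
    have e1 : dg w i (l : ℕ) = (w (⟨i, hi⟩, l) : ℕ) := by
      unfold dg
      rw [dif_pos ⟨hi, l.2⟩]
    have e2 := (hWe i).2.2.2.1 x hx
      (Function.update (fun l' => if l' % 2 = (l : ℕ) % 2 then 0 else dg w i l') (l : ℕ) (dg w i l)) (by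
        intro l' hl'
        by_cases hll : l' = (l : ℕ)
        · subst hll
          rw [Function.update_self]
        · rw [Function.update_of_ne hll]
          rw [if_neg]
          intro hmod
          rw [← hl] at hl'
          rw [abs_le] at hl'
          omega)
    have e3 := (hWd ((l : ℕ) % 2) i).2.2.2.2 x hx (l : ℕ) hl (dg w i l)
    have e4 : Function.update (fun l' => if l' % 2 = (l : ℕ) % 2 then 0 else dg w i l') (l : ℕ) 0
        = fun l' => if l' % 2 = (l : ℕ) % 2 then 0 else dg w i l' := by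
      rw [Function.update_eq_self_iff]
      rw [if_pos rfl]
    rw [e4, e2, e1] at e3
    show P i (E i x + Wd β u N τ (dg w i) x) = P i (E i x
      + Wd β u N τ (fun l' => if l' % 2 = (l : ℕ) % 2 then 0 else dg w i l') x + _)
    rw [e3, add_assoc]
  have hnc : ∀ (par i k : ℕ), k < N → Nc (fun x => f (P i (Bfr β u N par τ E (dg w) i x + τ * ((k : ℝ) / N)))) := by
    intro par i k hk
    have hc : |τ * ((k : ℝ) / N)| ≤ 1 / 256000 := by
      have e0 : (k : ℝ) / N ≤ 1 := by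
        rw [div_le_one hNr]
        exact_mod_cast hk.le
      have e1 : 0 ≤ (k : ℝ) / N := by positivity
      rw [abs_of_nonneg (by positivity)]
      nlinarith
    have hC := f2 (P i) (Bfr β u N par τ E (dg w) i) (1 / 1000) (1 / 100) (τ * ((k : ℝ) / N)) (by norm_num)
      (by norm_num) (hPE i).1 (hB par i)
    exact (i10 _ _ f (by linarith) hC (i11 (s + 1) f hf1 hf2)).1
  have hgn : ∀ (par i : ℕ), Nc (fun x => (∑ k ∈ Finset.range N,
      f (P i (Bfr β u N par τ E (dg w) i x + τ * ((k : ℝ) / N)))) / N) := fun par i =>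
    (i2 _ _ (i4 ℕ (Finset.range N) (fun k x => f (P i (Bfr β u N par τ E (dg w) i x + τ * ((k : ℝ) / N))))
      (fun k hk => hnc par i k (Finset.mem_range.1 hk)))).2.1
  -- the pieces
  have hzn : ∀ par < 2, √(nsq (fun x => (∑ i : {i // i ∈ fam q m φ}, zc (fun i : {i // i ∈ fam q m φ} => P i) (fun i : {i // i ∈ fam q m φ} => Bfr β u N par τ E (dg w) i) u N par τ f
      (fun e => w (⟨e.1.1, Finset.mem_range.1 (Finset.mem_filter.1 e.1.2).1⟩, e.2)) i x) / Fintype.card {i // i ∈ fam q m φ})) ≤ lam1 * √(nsq f) := by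
    intro par hpar
    have e1 := Real.sqrt_le_sqrt (hz par hpar f hf1 hf2 hf3)
    rwa [Real.sqrt_mul (sq_nonneg _), Real.sqrt_sq hlam] at e1
  have hmn : ∀ par, √(nsq (fun x => (∑ i ∈ (Finset.univ : Finset {i // i ∈ fam q m φ}), (bFGA_U u par).indicator (fun x => (∑ k ∈ Finset.range N,
      f (P i (Bfr β u N par τ E (dg w) i x + τ * ((k : ℝ) / N)))) / N) x) / (Finset.univ : Finset {i // i ∈ fam q m φ}).card))
      ≤ K * (1 / (2 ^ s * τ) + τ + √(2 ^ s * τ / N)) * √(nsq f) := by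
    intro par
    refine le_trans (Real.sqrt_le_sqrt (i9 {i // i ∈ fam q m φ} Finset.univ _
      (K * ((1 / (2 ^ s * τ) + τ) ^ 2 + 2 ^ s * τ / N) * nsq f) ?_ (fun i _ => ⟨?_, ?_⟩)))
      (bFGA_sq K (1 / (2 ^ s * τ) + τ) (2 ^ s * τ / N) (nsq f) hK (by positivity) (by positivity) (bFGA_nn f))
    · have := bFGA_nn f
      positivity
    · exact i3 _ _ (bFGA_Um u par) (hgn par i)
    · refine le_trans (i8 _ _ (i3 _ _ (bFGA_Um u par) (hgn par i)) (hgn par i) (fun x => ?_))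
        (hM (P i) (Bfr β u N par τ E (dg w) i) s N τ f (bFGA_mono _ _ _ (by norm_num) (hPE i).1) (hPE i).2.1
          (hB par i) hτ (by linarith) hN hs hf1 hf2 hf3)
      by_cases hx : x ∈ bFGA_U u par
      · rw [Set.indicator_of_mem hx]
      · rw [Set.indicator_of_notMem hx, abs_zero]
        exact abs_nonneg _
  have key : ∀ (i : {i // i ∈ fam q m φ}) (x : ℝ), f (CMf β u N (fun _ => τ) P E (dg w) i x) =
      zc (fun i : {i // i ∈ fam q m φ} => P i) (fun i : {i // i ∈ fam q m φ} => Bfr β u N 0 τ E (dg w) i) u N 0 τ f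
        (fun e => w (⟨e.1.1, Finset.mem_range.1 (Finset.mem_filter.1 e.1.2).1⟩, e.2)) i x
      + zc (fun i : {i // i ∈ fam q m φ} => P i) (fun i : {i // i ∈ fam q m φ} => Bfr β u N 1 τ E (dg w) i) u N 1 τ f
        (fun e => w (⟨e.1.1, Finset.mem_range.1 (Finset.mem_filter.1 e.1.2).1⟩, e.2)) i x
      + (bFGA_U u 0).indicator (fun x => (∑ k ∈ Finset.range N,
        f (P i (Bfr β u N 0 τ E (dg w) i x + τ * ((k : ℝ) / N)))) / N) x
      + (bFGA_U u 1).indicator (fun x => (∑ k ∈ Finset.range N,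
        f (P i (Bfr β u N 1 τ E (dg w) i x + τ * ((k : ℝ) / N)))) / N) x := by
    intro i x
    by_cases hx : x ∈ Set.Icc (1 / 6 : ℝ) (5 / 6)
    · obtain ⟨l, hl⟩ := bFGA_cell u x (by linarith [hx.1]) (by linarith [hx.2])
      rw [hin i (Finset.mem_range.1 (Finset.mem_filter.1 i.2).1) x l hx hl, bFGA_zin _ _ u N 0 τ f _ i x l hl,
        bFGA_zin _ _ u N 1 τ f _ i x l hl]
      have hU : ∀ par, x ∈ bFGA_U u par ↔ (l : ℕ) % 2 = par := by
        intro par
        constructor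
        · rintro ⟨l', h1, h2⟩
          have h3 := (bFGA_mem u x _).1 h2
          rw [← hl] at h3
          have h4 : (l : ℕ) = (l' : ℕ) := by exact_mod_cast h3
          rw [h4]
          exact h1
        · intro h
          exact ⟨l, h, (bFGA_mem u x _).2 hl.symm⟩
      rcases (by omega : (l : ℕ) % 2 = 0 ∨ (l : ℕ) % 2 = 1) with h | h
      · rw [Set.indicator_of_mem ((hU 0).2 h), Set.indicator_of_notMem (fun h' => by
          have := (hU 1).1 h'
          omega), if_pos h, if_neg (by omega), h]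
        ring
      · rw [Set.indicator_of_mem ((hU 1).2 h), Set.indicator_of_notMem (fun h' => by
          have := (hU 0).1 h'
          omega), if_pos h, if_neg (by omega), h]
        ring
    · have hg : ∀ par, (bFGA_U u par).indicator (fun x => (∑ k ∈ Finset.range N,
          f (P i (Bfr β u N par τ E (dg w) i x + τ * ((k : ℝ) / N)))) / N) x = 0 := by
        intro par
        have e : (∑ k ∈ Finset.range N, f (P i (Bfr β u N par τ E (dg w) i x + τ * ((k : ℝ) / N)))) / (N : ℝ) = 0 := by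
          rw [Finset.sum_eq_zero (fun k hk => hout par i x _ hx (by positivity) (by
            rw [div_le_one hNr]
            exact_mod_cast (Finset.mem_range.1 hk).le)), zero_div]
        by_cases hx' : x ∈ bFGA_U u par
        · rw [Set.indicator_of_mem hx']
          exact e
        · rw [Set.indicator_of_notMem hx']
      rw [hout2 i x hx, hg 0, hg 1, bFGA_zout _ _ u N 0 τ f _ i x (fun θ h0 h1 => hout 0 i x θ hx h0 h1),
        bFGA_zout _ _ u N 1 τ f _ i x (fun θ h0 h1 => hout 1 i x θ hx h0 h1)]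
      ring
  obtain ⟨Z, hZ⟩ : ∃ Z : ℕ → {i // i ∈ fam q m φ} → ℝ → ℝ, Z = fun (par : ℕ) (i : {i // i ∈ fam q m φ}) => zc (fun i : {i // i ∈ fam q m φ} => P i)
      (fun i : {i // i ∈ fam q m φ} => Bfr β u N par τ E (dg w) i) u N par τ f
      (fun e => w (⟨e.1.1, Finset.mem_range.1 (Finset.mem_filter.1 e.1.2).1⟩, e.2)) i := ⟨_, rfl⟩
  obtain ⟨G, hG⟩ : ∃ G : ℕ → {i // i ∈ fam q m φ} → ℝ → ℝ, G = fun (par : ℕ) (i : {i // i ∈ fam q m φ}) => (bFGA_U u par).indicator (fun x => (∑ k ∈ Finset.range N,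
        f (P i (Bfr β u N par τ E (dg w) i x + τ * ((k : ℝ) / N)))) / N) := ⟨_, rfl⟩
  have hA : ∀ par, Nc (fun x => (∑ i : {i // i ∈ fam q m φ}, Z par i x) / Fintype.card {i // i ∈ fam q m φ}) := by
    intro par
    refine (i2 _ _ (i4 _ Finset.univ (fun i => Z par i) (fun i _ => ?_))).2.1
    rw [hZ]
    exact bFGA_znc hI _ _ u N par τ f _ i (fun k hk => hnc par i k hk)
  have hMn : ∀ par, Nc (fun x => (∑ i ∈ (Finset.univ : Finset {i // i ∈ fam q m φ}), G par i x) / (Finset.univ : Finset {i // i ∈ fam q m φ}).card) := by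
    intro par
    refine (i2 _ _ (i4 _ Finset.univ (fun i => G par i) (fun i _ => ?_))).2.1
    rw [hG]
    exact i3 _ _ (bFGA_Um u par) (hgn par i)
  have hT : Tff q m φ (CMf β u N (fun _ => τ) P E (dg w)) f = fun x =>
      (((∑ i : {i // i ∈ fam q m φ}, Z 0 i x) / Fintype.card {i // i ∈ fam q m φ}
      + (∑ i : {i // i ∈ fam q m φ}, Z 1 i x) / Fintype.card {i // i ∈ fam q m φ})
      + (∑ i ∈ (Finset.univ : Finset {i // i ∈ fam q m φ}), G 0 i x) / (Finset.univ : Finset {i // i ∈ fam q m φ}).card)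
      + (∑ i ∈ (Finset.univ : Finset {i // i ∈ fam q m φ}), G 1 i x) / (Finset.univ : Finset {i // i ∈ fam q m φ}).card := by
    funext x
    unfold Tff
    rw [← Finset.sum_coe_sort (fam q m φ) (fun i => f (CMf β u N (fun _ => τ) P E (dg w) i x)),
      Finset.card_univ, Fintype.card_coe, Finset.sum_congr rfl (fun i _ => key i x), Finset.sum_add_distrib,
      Finset.sum_add_distrib, Finset.sum_add_distrib, hZ, hG, add_div, add_div, add_div]
  have hz0 : ∀ par < 2, √(nsq (fun x => (∑ i : {i // i ∈ fam q m φ}, Z par i x) / Fintype.card {i // i ∈ fam q m φ}))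
      ≤ lam1 * √(nsq f) := by
    rw [hZ]
    exact hzn
  have hm0 : ∀ par, √(nsq (fun x => (∑ i ∈ (Finset.univ : Finset {i // i ∈ fam q m φ}), G par i x) / (Finset.univ : Finset {i // i ∈ fam q m φ}).card))
      ≤ K * (1 / (2 ^ s * τ) + τ + √(2 ^ s * τ / N)) * √(nsq f) := by
    rw [hG]
    exact hmn
  have t1 := i6 _ _ (hA 0) (hA 1)
  have t2 := i6 _ _ (i1 _ _ (hA 0) (hA 1)).1 (hMn 0)
  have t3 := i6 _ _ (i1 _ _ (i1 _ _ (hA 0) (hA 1)).1 (hMn 0)).1 (hMn 1)
  have a1 := hz0 0 (by norm_num)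
  have a2 := hz0 1 (by norm_num)
  have a3 := hm0 0
  have a4 := hm0 1
  rw [hT]
  have e1 : √(nsq (fun x =>
      (((∑ i : {i // i ∈ fam q m φ}, Z 0 i x) / Fintype.card {i // i ∈ fam q m φ}
      + (∑ i : {i // i ∈ fam q m φ}, Z 1 i x) / Fintype.card {i // i ∈ fam q m φ})
      + (∑ i ∈ (Finset.univ : Finset {i // i ∈ fam q m φ}), G 0 i x) / (Finset.univ : Finset {i // i ∈ fam q m φ}).card)
      + (∑ i ∈ (Finset.univ : Finset {i // i ∈ fam q m φ}), G 1 i x) / (Finset.univ : Finset {i // i ∈ fam q m φ}).card))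
      ≤ (2 * lam1 + 2 * K * (1 / (2 ^ s * τ) + τ + √(2 ^ s * τ / N))) * √(nsq f) := by linarith
  have e2 := Real.sq_sqrt (bFGA_nn f)
  have e3 := Real.sqrt_nonneg (nsq f)
  rw [← e2, ← mul_pow]
  exact (Real.sqrt_le_left (by positivity)).1 e1

end Pool.Agent.helper90.DH
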